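import Mathlib
import Pool.Agent.R579.DrazinDefs

/-!
# Q2 of MP_632fda_an is true

The closedness of `S = R(A) + N(A^p)`, part of (E), forces `A` to be left Drazin invertible, and
then every admissible `C` makes `M_C` Drazin invertible; condition (iii) is not needed.
-/

set_option autoImplicit false

namespace Pool.Agent.Results.MP_632fda_an.Q2True

open Pool.Agent.R579.Drazin Submodule

section algebra

variable {E : Type} [NormedAddCommGroup E] [NormedSpace ℂ E] (M : E →L[ℂ] E)

/-- An operator that is nilpotent on `V₁` and modulo `V₂`, and bijective on `V₂ / V₁`, has finite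
ascent and descent. -/
lemma drazin_of_filtration {V1 V2 : Submodule ℂ E} {p : ℕ}
    (h1 : ∀ v ∈ V1, (M ^ p) v = 0) (h2 : ∀ v, (M ^ p) v ∈ V2) (h3 : ∀ v ∈ V2, M v ∈ V2)
    (hI : ∀ v ∈ V2, M v ∈ V1 → v ∈ V1) (hII : ∀ v ∈ V2, ∃ w ∈ V2, v - M w ∈ V1) :
    DrazinInvertible M := by
  constructor
  · have : kerPow M (2 * p + 1) = kerPow M (2 * p) := by
      apply le_antisymm _ (kerPow_mono M (by omega))
      intro v hv
      rw [mem_kerPow] at hv ⊢
      have key : ∀ n : ℕ, ∀ u ∈ V2, (M ^ n) u = 0 → u ∈ V1 := by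
        intro n
        induction n with
        | zero => intro u _ hu; rw [pow_zero] at hu; change u = 0 at hu; rw [hu]; exact V1.zero_mem
        | succ n ih =>
          intro u hu hu0
          rw [pow_succ_apply'] at hu0
          exact hI u hu (ih _ (h3 u hu) hu0)
      have h4 := key (p + 1) _ (h2 v) (by
        rw [← pow_add_apply, show p + 1 + p = 2 * p + 1 by ring]
        exact hv)
      have h5 := h1 _ h4
      rw [← pow_add_apply] at h5
      rw [two_mul]
      exact h5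
    obtain ⟨j, -, hj⟩ := hasAscent_of M this
    exact ⟨j, hj⟩
  · have : ranPow M (2 * p + 1) = ranPow M (2 * p) := by
      apply le_antisymm (ranPow_anti M (by omega))
      rintro _ ⟨v, rfl⟩
      have key : ∀ n : ℕ, ∀ u ∈ V2, ∃ w ∈ V2, (M ^ p) u = (M ^ (p + n)) w := by
        intro n
        induction n with
        | zero => intro u hu; exact ⟨u, hu, rfl⟩
        | succ n ih =>
          intro u hu
          obtain ⟨w, hw, hwu⟩ := ih u hu
          obtain ⟨w', hw', hww'⟩ := hII w hw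
          refine ⟨w', hw', ?_⟩
          have h4 : (M ^ (p + n)) (w - M w') = 0 := by
            rw [add_comm, pow_add_apply, h1 _ hww', map_zero]
          rw [map_sub, sub_eq_zero] at h4
          rw [hwu, h4, ← pow_succ_apply', add_assoc]
      obtain ⟨w, -, hw⟩ := key (p + 1) _ (h2 v)
      refine ⟨w, ?_⟩
      change (M ^ (2 * p + 1)) w = (M ^ (2 * p)) v
      rw [two_mul, pow_add_apply M p p v, hw, add_assoc]
    obtain ⟨j, -, hj⟩ := hasDescent_of M this
    exact ⟨j, hj⟩

end algebra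

variable {H K : Type} [NormedAddCommGroup H] [InnerProductSpace ℂ H] [CompleteSpace H]
  [NormedAddCommGroup K] [InnerProductSpace ℂ K] [CompleteSpace K]

lemma kerPow_closed {E : Type} [NormedAddCommGroup E] [NormedSpace ℂ E] (T : E →L[ℂ] E) (k : ℕ) :
    IsClosed (kerPow T k : Set E) := (T ^ k).isClosed_ker

/-- closedness of `R(A) + N(A^p)` forces left Drazin invertibility -/
lemma leftDrazin_of_closed {A : H →L[ℂ] H} {a p : ℕ} (ha : HasAscent A a) (hap : a ≤ p)
    (hS : IsClosed (spS A p : Set H)) : LeftDrazin A := by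
  have hker : ∀ n, a ≤ n → kerPow A n = kerPow A a := fun n hn => ker_stable A ha.1 hn
  set N : Submodule ℂ H := kerPow A a with hN
  have hNclosed : IsClosed (N : Set H) := kerPow_closed A a
  have : CompleteSpace N := hNclosed.completeSpace_coe
  have hAN : ∀ x ∈ N, A x ∈ N := by
    intro x hx
    rw [hN, mem_kerPow, ← pow_succ_apply', pow_succ_apply]
    rw [hN, mem_kerPow] at hx
    rw [hx, map_zero]
  have hNA : ∀ x, A x ∈ N → x ∈ N := by
    intro x hx
    rw [hN, mem_kerPow, ← pow_succ_apply'] at hx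
    rw [← hker (a + 1) (by omega)]
    exact hx
  let f : (Nᗮ × N) →L[ℂ] H := (A.comp Nᗮ.subtypeL).coprod N.subtypeL
  have hf : ∀ z : Nᗮ × N, f z = A z.1 + z.2 := fun z => rfl
  have hinj : Function.Injective f := by
    rw [injective_iff_map_eq_zero]
    rintro ⟨x, n⟩ hz
    rw [hf] at hz
    simp only at hz
    have h1 : A x ∈ N := by
      rw [eq_neg_of_add_eq_zero_left hz]
      exact N.neg_mem n.2
    have h2 := hNA _ h1
    have h3 : (x : H) = 0 := by
      have := Submodule.inner_right_of_mem_orthogonal h2 x.2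
      exact inner_self_eq_zero.1 this
    rw [h3, map_zero, zero_add] at hz
    exact Prod.ext (Subtype.ext h3) (Subtype.ext hz)
  have hdecomp : ∀ x : H, ∃ y ∈ Nᗮ, ∃ n ∈ N, x = y + n := by
    intro x
    obtain ⟨n, hn, y, hy, h⟩ := Submodule.exists_add_mem_mem_orthogonal (K := N) x
    exact ⟨y, hy, n, hn, by rw [h, add_comm]⟩
  have hran : Set.range f = (spS A p : Set H) := by
    ext y
    constructor
    · rintro ⟨⟨x, n⟩, rfl⟩
      rw [hf]
      refine Submodule.add_mem_sup ⟨x, ?_⟩ ?_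
      · change (A ^ 1) _ = _
        rw [pow_one]
      · change (n : H) ∈ kerPow A p
        rw [hker p hap]
        exact n.2
    · intro hy
      rw [SetLike.mem_coe, spS, Submodule.mem_sup] at hy
      obtain ⟨_, ⟨x, rfl⟩, n, hn, rfl⟩ := hy
      rw [hker p hap] at hn
      obtain ⟨x1, hx1, n1, hn1, rfl⟩ := hdecomp x
      refine ⟨⟨⟨x1, hx1⟩, ⟨A n1 + n, N.add_mem (hAN _ hn1) hn⟩⟩, ?_⟩
      rw [hf]
      change A x1 + (A n1 + n) = (A ^ 1) (x1 + n1) + n
      rw [pow_one, map_add, add_assoc]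
  obtain ⟨c, hc⟩ := f.antilipschitz_of_injective_of_isClosed_range hinj (by rw [hran]; exact hS)
  have hbd : ∀ x ∈ Nᗮ, ∀ n ∈ N, ‖x‖ ≤ c * ‖A x + n‖ := by
    intro x hx n hn
    have h1 := hc.le_mul_dist ((⟨x, hx⟩, ⟨n, hn⟩) : Nᗮ × N) 0
    rw [dist_zero_right, map_zero, dist_zero_right, hf] at h1
    exact le_trans (norm_fst_le ((⟨x, hx⟩, ⟨n, hn⟩) : Nᗮ × N)) h1
  have hbdk : ∀ k : ℕ, ∀ x ∈ Nᗮ, ∀ n ∈ N, ‖x‖ ≤ (c : ℝ) ^ k * ‖(A ^ k) x + n‖ := by
    intro k
    induction k with
    | zero =>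
      intro x hx n hn
      rw [pow_zero, pow_zero, one_mul]
      change ‖x‖ ≤ ‖x + n‖
      have h1 : ‖x + n‖ ^ 2 = ‖x‖ ^ 2 + ‖n‖ ^ 2 := by
        have h2 := norm_add_sq_eq_norm_sq_add_norm_sq_of_inner_eq_zero x n
          (Submodule.inner_left_of_mem_orthogonal hn hx)
        nlinarith [h2]
      have h3 : ‖x‖ ^ 2 ≤ ‖x + n‖ ^ 2 := by rw [h1]; nlinarith [sq_nonneg ‖n‖]
      exact le_of_sq_le_sq h3 (norm_nonneg _)
    | succ k ih =>
      intro x hx n hn
      obtain ⟨y, hy, m, hm, hym⟩ := hdecomp (A x)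
      have h1 := ih y hy ((A ^ k) m + n) (N.add_mem (by
        clear ih
        induction k with
        | zero => exact hm
        | succ k ih => rw [pow_succ_apply]; exact hAN _ ih) hn)
      have h2 := hbd x hx (-m) (N.neg_mem hm)
      rw [hym, add_neg_cancel_right] at h2
      rw [pow_succ_apply', hym, map_add, pow_succ, mul_comm ((c:ℝ) ^ k), mul_assoc, add_assoc]
      exact h2.trans (by gcongr)
  refine ⟨a, ha, ?_⟩
  let g : Nᗮ →L[ℂ] H := (A ^ (a + 1)).comp Nᗮ.subtypeL
  have hg : AntilipschitzWith (c ^ (a + 1)) g := by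
    apply AddMonoidHomClass.antilipschitz_of_bound
    intro x
    have := hbdk (a + 1) x x.2 0 N.zero_mem
    rw [add_zero] at this
    exact_mod_cast this
  have hgran : Set.range g = (ranPow A (a + 1) : Set H) := by
    ext y
    constructor
    · rintro ⟨x, rfl⟩
      exact ⟨x, rfl⟩
    · rintro ⟨x, rfl⟩
      obtain ⟨x1, hx1, n1, hn1, rfl⟩ := hdecomp x
      refine ⟨⟨x1, hx1⟩, ?_⟩
      change (A ^ (a + 1)) x1 = (A ^ (a + 1)) (x1 + n1)
      have h1 : (A ^ (a + 1)) n1 = 0 := by
        rw [← mem_kerPow, hker (a + 1) (by omega)]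
        exact hn1
      rw [map_add, h1, add_zero]
  rw [← hgran]
  exact hg.isClosed_range g.uniformContinuous

omit [CompleteSpace K] in
/-- under the hypotheses of Q2 every admissible `C` makes `M_C` Drazin invertible -/
lemma drazin_of_admissible {A : H →L[ℂ] H} {B : K →L[ℂ] K} {p : ℕ} (hp : GoodP A B p)
    (hB : RightDrazin B) (hE : CondE A B p) {C : K →L[ℂ] H} (hC : Admissible A B p C) :
    DrazinInvertible (MC A B C) := by
  obtain ⟨-, ⟨a, hap, ha⟩, ⟨b, hbp, hb⟩⟩ := hp
  obtain ⟨hS, -⟩ := hE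
  -- facts on `A`
  have hker : ∀ n, p ≤ n → kerPow A n = kerPow A p := fun n hn => by
    rw [ker_stable A ha.1 (hap.trans hn), ker_stable A ha.1 hap]
  have hNA : ∀ x, A x ∈ kerPow A p → x ∈ kerPow A p := by
    intro x hx
    rw [mem_kerPow, ← pow_succ_apply'] at hx
    rw [← hker (p + 1) (by omega)]
    exact hx
  -- facts on `B`
  have hran : ∀ n, p ≤ n → ranPow B n = ranPow B p := fun n hn => by
    rw [ran_stable B hb.1 (hbp.trans hn), ran_stable B hb.1 hbp]
  have hRclosed : IsClosed (ranPow B p : Set K) := by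
    obtain ⟨b', hb', hcl⟩ := hB
    have h1 : b' = b := le_antisymm (hb'.2 hb.1) (hb.2 hb'.1)
    rw [ran_stable B hb.1 hbp, ← h1]
    exact hcl
  have hBR : ∀ x ∈ ranPow B p, B x ∈ ranPow B p := by
    rintro _ ⟨y, rfl⟩
    refine ⟨B y, ?_⟩
    change (B ^ p) (B y) = B ((B ^ p) y)
    rw [← pow_succ_apply', pow_succ_apply]
  have hBR' : ∀ x ∈ ranPow B p, ∃ y ∈ ranPow B p, B y = x := by
    intro x hx
    rw [← hran (p + 1) (by omega)] at hx
    obtain ⟨y, rfl⟩ := hx
    refine ⟨(B ^ p) y, ⟨y, rfl⟩, ?_⟩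
    change B ((B ^ p) y) = (B ^ (p + 1)) y
    rw [pow_succ_apply]
  have hT : spT B p = kerPow B 1 ⊓ ranPow B p := by
    have h1 : IsClosed ((kerPow B 1 ⊓ ranPow B p : Submodule ℂ K) : Set K) :=
      (kerPow_closed B 1).inter hRclosed
    exact h1.submodule_topologicalClosure_eq
  obtain ⟨⟨J, hJ⟩, -⟩ := hC
  have : CompleteSpace (spS A p) := hS.completeSpace_coe
  have hfst : ∀ (n : ℕ) (z : H × K), ((MC A B C ^ n) z).2 = (B ^ n) z.2 := by
    intro n
    induction n with
    | zero => intro z; rfl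
    | succ n ih =>
      intro z
      rw [pow_succ_apply, pow_succ_apply, MC_apply, ih]
  refine drazin_of_filtration (MC A B C) (p := p)
    (V1 := (kerPow A p).prod ⊥) (V2 := (⊤ : Submodule ℂ H).prod (ranPow B p)) ?_ ?_ ?_ ?_ ?_
  · rintro ⟨h, k⟩ ⟨hh, hk⟩
    change k = 0 at hk
    subst hk
    have key : ∀ n : ℕ, (MC A B C ^ n) (h, 0) = ((A ^ n) h, 0) := by
      intro n
      induction n with
      | zero => rfl
      | succ n ih =>
        rw [pow_succ_apply, ih, MC_apply, pow_succ_apply, map_zero, map_zero, add_zero]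
    rw [key]
    have h1 : (A ^ p) h = 0 := hh
    rw [h1]
    rfl
  · intro z
    refine ⟨Submodule.mem_top, ?_⟩
    change ((MC A B C ^ p) z).2 ∈ ranPow B p
    rw [hfst]
    exact ⟨z.2, rfl⟩
  · rintro ⟨h, k⟩ ⟨-, hk⟩
    exact ⟨Submodule.mem_top, hBR k hk⟩
  · rintro ⟨h, k⟩ ⟨-, hk⟩ ⟨h1, h2⟩
    rw [MC_apply] at h1 h2
    change A h + C k ∈ kerPow A p at h1
    change B k = 0 at h2
    change k ∈ ranPow B p at hk
    have hkT : k ∈ spT B p := by
      rw [hT]
      refine ⟨?_, hk⟩
      rw [SetLike.mem_coe, mem_kerPow, pow_one]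
      exact h2
    have h3 : C k = J ⟨k, hkT⟩ := hJ ⟨k, hkT⟩
    have h4 : (J ⟨k, hkT⟩ : H) ∈ spS A p := by
      have h5 : (J ⟨k, hkT⟩ : H) = A (-h) + (A h + C k) := by
        rw [← h3, map_neg]; abel
      rw [h5]
      refine Submodule.add_mem_sup ⟨-h, ?_⟩ h1
      change (A ^ 1) _ = _
      rw [pow_one]
    have h5 : (J ⟨k, hkT⟩ : H) = 0 :=
      inner_self_eq_zero.1 (Submodule.inner_right_of_mem_orthogonal h4 (J ⟨k, hkT⟩).2)
    have h6 : k = 0 := by
      have h7 : J ⟨k, hkT⟩ = 0 := Subtype.ext h5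
      exact congrArg Subtype.val ((map_eq_zero_iff J J.injective).1 h7)
    subst h6
    rw [map_zero, add_zero] at h1
    exact ⟨hNA h h1, rfl⟩
  · rintro ⟨h, k⟩ ⟨-, hk⟩
    obtain ⟨r, hr, hrk⟩ := hBR' k hk
    obtain ⟨s, hs, s', hs', hss⟩ := Submodule.exists_add_mem_mem_orthogonal (K := spS A p)
      (h - C r)
    rw [spS, Submodule.mem_sup] at hs
    obtain ⟨_, ⟨x, rfl⟩, n, hn, rfl⟩ := hs
    set t := J.symm ⟨s', hs'⟩ with ht
    have htT : (t : K) ∈ kerPow B 1 ⊓ ranPow B p := by rw [← hT]; exact t.2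
    have hCt : C t = s' := by rw [hJ t, ht, ContinuousLinearEquiv.apply_symm_apply]
    have hBt : B t = 0 := by
      have h1 := htT.1
      rw [SetLike.mem_coe, mem_kerPow, pow_one] at h1
      exact h1
    refine ⟨(x, r + t), ⟨Submodule.mem_top, Submodule.add_mem _ hr htT.2⟩, ?_⟩
    have h1 : (h, k) - MC A B C (x, r + t) = (n, 0) := by
      rw [MC_apply]
      simp only [map_add, hCt, hBt, add_zero, hrk]
      refine Prod.ext ?_ (sub_self k)
      change h - (A x + (C r + s')) = n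
      change h - C r = (A ^ 1) x + n + s' at hss
      rw [pow_one] at hss
      have : h = A x + n + s' + C r := by rw [← hss, sub_add_cancel]
      rw [this]
      abel
    rw [h1]
    exact ⟨hn, rfl⟩

/-- **Q2 is true.** Let `p ≥ max{1, asc(A), dsc(B)}`, `B` right Drazin invertible and (E). Then `A`
is left Drazin invertible, and `M_C` is Drazin invertible for every admissible `C`. Neither
condition (iii) nor left Drazin invertibility of `A` is assumed. -/
theorem result (H K : Type) [NormedAddCommGroup H] [InnerProductSpace ℂ H] [CompleteSpace H]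
    [NormedAddCommGroup K] [InnerProductSpace ℂ K] [CompleteSpace K]
    (A : H →L[ℂ] H) (B : K →L[ℂ] K) (p : ℕ) (hp : GoodP A B p) (hB : RightDrazin B)
    (hE : CondE A B p) :
    LeftDrazin A ∧ ∀ C : K →L[ℂ] H, Admissible A B p C → DrazinInvertible (MC A B C) := by
  refine ⟨?_, fun C hC => drazin_of_admissible hp hB hE hC⟩
  obtain ⟨-, ⟨a, hap, ha⟩, -⟩ := hp
  exact leftDrazin_of_closed ha hap hE.1

end Pool.Agent.Results.MP_632fda_an.Q2True
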